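import Mathlib

/-!
Abstract Hilbert space lemmas: Hilbert-Schmidt operators are compact, and a criterion for the
divergence of the sum of the eigenvalues of a positive compact operator.
-/

set_option autoImplicit false

open Filter Topology Module Module.End
open scoped InnerProductSpace NNReal ENNReal

namespace Pool.Agent.Lib.MP_5a0ad8_an

variable {E : Type*} [NormedAddCommGroup E] [InnerProductSpace ℂ E] [CompleteSpace E]

theorem hs_compact {ι : Type*} (b : HilbertBasis ι ℂ E) (T : E →L[ℂ] E)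
    (hs : Summable fun i => ‖T (b i)‖ ^ 2) : IsCompactOperator T := by
  classical
  let F : Finset ι → E →L[ℂ] E := fun s => ∑ i ∈ s, (innerSL ℂ (b i)).smulRight (T (b i))
  have hF : ∀ s, IsCompactOperator (F s) := by
    intro s
    have : F s ∈ compactOperator (RingHom.id ℂ) E E := by
      refine Submodule.sum_mem _ fun i _ => ?_
      have h1 := (isCompactOperator_of_locallyCompactSpace_dom (innerSL ℂ (b i))).clm_comp
        (ContinuousLinearMap.toSpanSingleton ℂ (T (b i)))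
      exact h1
    exact this
  refine isCompactOperator_of_tendsto (l := atTop) (F := F) ?_ (Eventually.of_forall hF)
  rw [Metric.tendsto_atTop]
  intro ε hε
  obtain ⟨s₀, hs₀⟩ := hs.vanishing (e := Set.Iio ((ε / 2) ^ 2)) (Iio_mem_nhds (by positivity))
  refine ⟨s₀, fun s hs => ?_⟩
  rw [dist_eq_norm']
  refine lt_of_le_of_lt ?_ (half_lt_self hε)
  refine ContinuousLinearMap.opNorm_le_bound _ (by positivity) fun x => ?_
  have h1 : HasSum (fun i => ⟪b i, x⟫_ℂ • T (b i)) (T x) := by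
    have := (b.hasSum_repr x).mapL T
    simpa only [map_smul, b.repr_apply_apply] using this
  have h2 : Tendsto (fun t : Finset ι => ‖∑ i ∈ t, ⟪b i, x⟫_ℂ • T (b i) - F s x‖) atTop
      (𝓝 ‖T x - F s x‖) := (Tendsto.sub_const h1 _).norm
  refine le_of_tendsto h2 ?_
  filter_upwards [eventually_ge_atTop s] with t ht
  have h3 : ∑ i ∈ t, ⟪b i, x⟫_ℂ • T (b i) - F s x = ∑ i ∈ t \ s, ⟪b i, x⟫_ℂ • T (b i) := by
    rw [Finset.sum_sdiff_eq_sub ht]
    simp [F]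
  rw [h3]
  have h4 := hs₀ (t \ s) (Finset.disjoint_of_subset_right hs Finset.sdiff_disjoint)
  have h5 := b.orthonormal.sum_inner_products_le (s := t \ s) x
  calc ‖∑ i ∈ t \ s, ⟪b i, x⟫_ℂ • T (b i)‖ ≤ ∑ i ∈ t \ s, ‖⟪b i, x⟫_ℂ‖ * ‖T (b i)‖ := by
        refine (norm_sum_le _ _).trans (le_of_eq ?_)
        simp only [norm_smul]
    _ ≤ √(∑ i ∈ t \ s, ‖⟪b i, x⟫_ℂ‖ ^ 2) * √(∑ i ∈ t \ s, ‖T (b i)‖ ^ 2) :=
        Real.sum_mul_le_sqrt_mul_sqrt _ _ _
    _ ≤ ‖x‖ * (ε / 2) := by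
        gcongr
        · exact Real.sqrt_le_iff.mpr ⟨norm_nonneg _, h5⟩
        · exact Real.sqrt_le_iff.mpr ⟨by positivity, le_of_lt h4⟩
    _ = ε / 2 * ‖x‖ := mul_comm _ _

theorem norm_le_of_eigen (S : E →L[ℂ] E) (hS : IsCompactOperator S) (hS' : S.IsSymmetric)
    (t : ℝ≥0) (h : ∀ μ : ℂ, HasEigenvalue (S : End ℂ E) μ → ‖μ‖₊ ≤ t) : ‖S‖₊ ≤ t := by
  rw [← ENNReal.coe_le_coe, ← S.spectralRadius_eq_nnnorm hS'.isSelfAdjoint, spectralRadius]
  refine iSup₂_le fun μ hμ => ?_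
  rw [ENNReal.coe_le_coe]
  by_cases h0 : μ = 0
  · simp [h0]
  · exact h μ ((hS.hasEigenvalue_iff_mem_spectrum h0).mpr hμ)

omit [CompleteSpace E] in
theorem finrank_biSup_le {ι : Type*} (s : Finset ι) (V : ι → Submodule ℂ E)
    (hV : ∀ i ∈ s, FiniteDimensional ℂ (V i)) :
    FiniteDimensional ℂ (⨆ i ∈ s, V i : Submodule ℂ E) ∧
      finrank ℂ (⨆ i ∈ s, V i : Submodule ℂ E) ≤ ∑ i ∈ s, finrank ℂ (V i) := by
  classical
  induction s using Finset.induction_on with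
  | empty =>
    have : (⨆ i ∈ (∅ : Finset ι), V i : Submodule ℂ E) = ⊥ := by simp
    rw [this]
    exact ⟨inferInstance, by simp⟩
  | insert a s ha ih =>
    obtain ⟨h1, h2⟩ := ih fun i hi => hV i (Finset.mem_insert_of_mem hi)
    have h3 := hV a (Finset.mem_insert_self _ _)
    rw [Finset.iSup_insert, Finset.sum_insert ha]
    exact ⟨inferInstance, (Submodule.finrank_add_le_finrank_add_finrank _ _).trans (by omega)⟩

theorem norm_le_on_orth (A : E →L[ℂ] E) (hA : IsCompactOperator A) (hpos : A.IsPositive)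
    (t : ℝ≥0) (G : Finset ℝ≥0)
    (hG : ∀ s : ℝ≥0, t < s → eigenspace (A : End ℂ E) ((s : ℝ) : ℂ) ≠ ⊥ → s ∈ G) (x : E)
    (hx : x ∈ (⨆ s ∈ G, eigenspace (A : End ℂ E) ((s : ℝ) : ℂ))ᗮ) : ‖A x‖ ≤ t * ‖x‖ := by
  set U : Submodule ℂ E := ⨆ s ∈ G, eigenspace (A : End ℂ E) ((s : ℝ) : ℂ) with hU
  have hsym : A.IsSymmetric := hpos.isSymmetric
  have hinv : ∀ v ∈ Uᗮ, A v ∈ Uᗮ := by
    intro v hv
    have hchar : ∀ w, w ∈ Uᗮ ↔ ∀ s ∈ G, w ∈ (eigenspace (A : End ℂ E) ((s : ℝ) : ℂ))ᗮ := by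
      intro w
      rw [hU, ← Submodule.iInf_orthogonal, Submodule.mem_iInf]
      refine forall_congr' fun s => ?_
      by_cases hs : s ∈ G <;> simp [hs]
    rw [hchar] at hv ⊢
    intro s hs
    exact hsym.invariant_orthogonalComplement_eigenspace _ v (hv s hs)
  let S : Uᗮ →L[ℂ] Uᗮ := A.restrict hinv
  have hS_compact : IsCompactOperator S := hA.restrict' hinv
  have hS_symm : S.IsSymmetric := hsym.restrict_invariant hinv
  have key := norm_le_of_eigen S hS_compact hS_symm t (by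
    intro μ hμ
    obtain ⟨v, hv⟩ := hμ.exists_hasEigenvector
    have hv1 : A v = μ • (v : E) := congrArg Subtype.val hv.apply_eq_smul
    have hv0 : (v : E) ≠ 0 := fun h => hv.2 (Subtype.ext h)
    have hμA : HasEigenvalue (A : End ℂ E) μ :=
      hasEigenvalue_of_hasEigenvector ⟨mem_eigenspace_iff.mpr hv1, hv0⟩
    have hre : ((μ.re : ℝ) : ℂ) = μ :=
      Complex.conj_eq_iff_re.mp (hsym.conj_eigenvalue_eq_self hμA)
    have hnn : 0 ≤ μ.re := by
      apply eigenvalue_nonneg_of_nonneg (𝕜 := ℂ) (T := (A : End ℂ E))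
      · exact hre.symm ▸ hμA
      · exact fun y => hpos.re_inner_nonneg_right y
    by_contra hcon
    push Not at hcon
    let s : ℝ≥0 := ⟨μ.re, hnn⟩
    have hs : ‖μ‖₊ = s := by
      ext
      rw [coe_nnnorm, ← hre, Complex.norm_real, Real.norm_eq_abs, abs_of_nonneg hnn]
      rfl
    have hsμ : ((s : ℝ) : ℂ) = μ := hre
    have hmem : (v : E) ∈ eigenspace (A : End ℂ E) ((s : ℝ) : ℂ) := by
      rw [hsμ]; exact mem_eigenspace_iff.mpr hv1
    have hsG : s ∈ G := hG s (hs ▸ hcon) (by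
      intro hbot
      rw [hbot] at hmem
      exact hv0 hmem)
    have hvU : (v : E) ∈ U := (le_iSup₂_of_le (f := fun s (_ : s ∈ G) =>
      eigenspace (A : End ℂ E) ((s : ℝ) : ℂ)) s hsG le_rfl) hmem
    exact hv0 (inner_self_eq_zero.mp (Submodule.inner_right_of_mem_orthogonal hvU v.2)))
  have h1 := S.le_opNorm ⟨x, hx⟩
  have h2 : ‖S‖ ≤ t := key
  have h3 : ‖S ⟨x, hx⟩‖ = ‖A x‖ := rfl
  have h4 : ‖(⟨x, hx⟩ : Uᗮ)‖ = ‖x‖ := rfl
  rw [h3, h4] at h1
  exact h1.trans (by gcongr)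

theorem tsum_eigen_eq_top (A : E →L[ℂ] E) (hA : IsCompactOperator A) (hpos : A.IsPositive)
    (c : ℝ) (hc : 0 < c)
    (H : ∀ m : ℕ, ∀ U : Submodule ℂ E, FiniteDimensional ℂ U → finrank ℂ U + 2 < m →
      ∃ x ∈ Uᗮ, x ≠ 0 ∧ c / m * ‖x‖ ≤ ‖A x‖) :
    ∑' s : ℝ≥0, (s : ℝ≥0∞) * (finrank ℂ (eigenspace (A : End ℂ E) ((s : ℝ) : ℂ)) : ℝ≥0∞) = ⊤ := by
  classical
  by_contra hcon
  set d : ℝ≥0 → ℕ := fun s => finrank ℂ (eigenspace (A : End ℂ E) ((s : ℝ) : ℂ)) with hd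
  have hsum : Summable fun s : ℝ≥0 => (s : ℝ) * d s := by
    have h1 : ∑' s : ℝ≥0, ((s * (d s : ℝ≥0) : ℝ≥0) : ℝ≥0∞) ≠ ⊤ := by
      simpa using hcon
    have h2 := NNReal.summable_coe.mpr (ENNReal.tsum_coe_ne_top_iff_summable.mp h1)
    simpa using h2
  obtain ⟨F, hF⟩ := hsum.vanishing (e := Set.Iio (c / 8)) (Iio_mem_nhds (by positivity))
  set D : ℕ := ∑ s ∈ F, d s with hD
  set m : ℕ := 4 * D + 4 with hm
  have hm0 : (0 : ℝ) < m := by rw [hm]; positivity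
  let t : ℝ≥0 := ⟨c / (2 * m), by positivity⟩
  have ht : (t : ℝ) = c / (2 * m) := rfl
  have ht0 : (0 : ℝ) < t := by rw [ht]; positivity
  have hfin : ∀ s : ℝ≥0, t < s →
      FiniteDimensional ℂ (eigenspace (A : End ℂ E) ((s : ℝ) : ℂ)) := by
    intro s hs
    apply ContinuousLinearMap.finite_dimensional_eigenspace hA
    have : (0 : ℝ) < s := ht0.trans (by exact_mod_cast hs)
    exact_mod_cast this.ne'
  have hG0 : {s : ℝ≥0 | t < s ∧ d s ≠ 0}.Finite := by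
    have h1 := hsum.tendsto_cofinite_zero.eventually (gt_mem_nhds ht0)
    refine Set.Finite.subset h1 ?_
    rintro s ⟨hs1, hs2⟩
    have h2 : (1 : ℝ) ≤ d s := by exact_mod_cast Nat.one_le_iff_ne_zero.mpr hs2
    have h3 : (t : ℝ) < s := by exact_mod_cast hs1
    simp only [Set.mem_compl_iff, Set.mem_ofPred_eq, not_lt]
    nlinarith
  set G := hG0.toFinset with hG
  have hGmem : ∀ s, s ∈ G ↔ t < s ∧ d s ≠ 0 := fun s => by simp [hG]
  obtain ⟨hU1, hU2⟩ := finrank_biSup_le G (fun s => eigenspace (A : End ℂ E) ((s : ℝ) : ℂ))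
    (fun s hs => hfin s ((hGmem s).mp hs).1)
  have hbig : m ≤ ∑ s ∈ G, d s + 2 := by
    by_contra hlt
    push Not at hlt
    obtain ⟨x, hx, hx0, hx1⟩ := H m _ hU1 (lt_of_le_of_lt (Nat.add_le_add_right hU2 2) hlt)
    have h1 := norm_le_on_orth A hA hpos t G (by
      intro s hs hne
      rw [hGmem]
      refine ⟨hs, fun h0 => hne ?_⟩
      have := hfin s hs
      exact Submodule.finrank_eq_zero.mp h0) x hx
    have h2 : 0 < ‖x‖ := norm_pos_iff.mpr hx0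
    have h3 : (t : ℝ) < c / m := by
      rw [ht]
      gcongr
      linarith
    nlinarith
  have h1 : ∑ s ∈ G, d s ≤ D + ∑ s ∈ G \ F, d s := by
    rw [← Finset.sum_inter_add_sum_sdiff G F]
    gcongr
    exact Finset.sum_le_sum_of_subset Finset.inter_subset_right
  have h2 : (t : ℝ) * ∑ s ∈ G \ F, (d s : ℝ) ≤ ∑ s ∈ G \ F, (s : ℝ) * d s := by
    rw [Finset.mul_sum]
    refine Finset.sum_le_sum fun s hs => ?_
    have : (t : ℝ) < s := by exact_mod_cast ((hGmem s).mp (Finset.mem_sdiff.mp hs).1).1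
    gcongr
  have h3 : ∑ s ∈ G \ F, (s : ℝ) * d s < c / 8 := hF _ Finset.sdiff_disjoint
  have h4 : (m : ℝ) ≤ D + ∑ s ∈ G \ F, (d s : ℝ) + 2 := by
    exact_mod_cast hbig.trans (by omega)
  have h5 : (m : ℝ) = 4 * D + 4 := by rw [hm]; push_cast; ring
  have h6 : (m : ℝ) / 4 ≤ ∑ s ∈ G \ F, (d s : ℝ) := by
    have : (0 : ℝ) ≤ D := by positivity
    linarith
  have h7 : (t : ℝ) * (m / 4) = c / 8 := by
    rw [ht]; field_simp; ring
  have h8 : (t : ℝ) * (m / 4) ≤ (t : ℝ) * ∑ s ∈ G \ F, (d s : ℝ) := by gcongr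
  linarith

theorem sqrt_facts (T : E →L[ℂ] E) :
    (CFC.sqrt (ContinuousLinearMap.adjoint T * T)).IsPositive ∧
      ∀ x, ‖CFC.sqrt (ContinuousLinearMap.adjoint T * T) x‖ = ‖T x‖ := by
  have h0 : 0 ≤ ContinuousLinearMap.adjoint T * T := star_mul_self_nonneg T
  have h1 : (CFC.sqrt (ContinuousLinearMap.adjoint T * T)).IsPositive :=
    (ContinuousLinearMap.nonneg_iff_isPositive _).mp (CFC.sqrt_nonneg _)
  refine ⟨h1, fun x => ?_⟩
  have h2 := CFC.sqrt_mul_sqrt_self _ h0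
  set A := CFC.sqrt (ContinuousLinearMap.adjoint T * T) with hA
  have h3 : ⟪A x, A x⟫_ℂ = ⟪T x, T x⟫_ℂ := by
    have h4 : ⟪A x, A x⟫_ℂ = ⟪x, A (A x)⟫_ℂ := h1.isSymmetric x (A x)
    have h5 : A (A x) = ContinuousLinearMap.adjoint T (T x) := by
      have := congrArg (fun S : E →L[ℂ] E => S x) h2
      simpa using this
    rw [h4, h5, ContinuousLinearMap.adjoint_inner_right]
  rw [norm_eq_sqrt_re_inner (𝕜 := ℂ), norm_eq_sqrt_re_inner (𝕜 := ℂ) (T x), h3]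

end Pool.Agent.Lib.MP_5a0ad8_an
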