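import Mathlib

/-!
Integral operators with bounded measurable real kernels on a probability space.
-/

set_option autoImplicit false

open MeasureTheory Filter
open scoped InnerProductSpace

namespace Pool.Agent.Lib.MP_5a0ad8_an

variable {α : Type*} [MeasurableSpace α] {μ : Measure α}

theorem norm_sq_eq_integral (f : Lp ℂ 2 μ) : ‖f‖ ^ 2 = ∫ a, ‖f a‖ ^ 2 ∂μ := by
  have h1 : ⟪f, f⟫_ℂ = ∫ a, ⟪f a, f a⟫_ℂ ∂μ := L2.inner_def f f
  simp only [inner_self_eq_norm_sq_to_K] at h1
  apply Complex.ofReal_injective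
  rw [← integral_complex_ofReal]
  push_cast
  exact h1

theorem integrable_norm_sq (f : Lp ℂ 2 μ) : Integrable (fun a => ‖f a‖ ^ 2) μ :=
  (memLp_two_iff_integrable_sq_norm (Lp.aestronglyMeasurable f)).mp (Lp.memLp f)

theorem exists_op [IsProbabilityMeasure μ] (k : α → α → ℝ)
    (hm : Measurable (Function.uncurry k)) (hb : ∀ y u, |k y u| ≤ 1) :
    ∃ T : Lp ℂ 2 μ →L[ℂ] Lp ℂ 2 μ,
      (∀ h : Lp ℂ 2 μ, T h =ᵐ[μ] fun y => ∫ u, (k y u : ℂ) * h u ∂μ) ∧
      ∀ (ι : Type) (b : ι → Lp ℂ 2 μ), Orthonormal ℂ b → ∀ s : Finset ι,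
        ∑ i ∈ s, ‖T (b i)‖ ^ 2 ≤ 1 := by
  have hky : ∀ y, MemLp (fun u => (k y u : ℂ)) 2 μ := by
    intro y
    refine MemLp.of_bound ?_ 1 (Eventually.of_forall fun u => by simpa using hb y u)
    exact (Complex.measurable_ofReal.comp (hm.of_uncurry_left (x := y))).aestronglyMeasurable
  let ky : α → Lp ℂ 2 μ := fun y => (hky y).toLp _
  have hnorm : ∀ y, ‖ky y‖ ≤ 1 := by
    intro y
    have := Lp.norm_le_of_ae_bound (f := ky y) zero_le_one (by
      filter_upwards [(hky y).coeFn_toLp] with u hu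
      rw [hu]
      simpa using hb y u)
    simpa [measureUnivNNReal] using this
  have hinner : ∀ y (h : Lp ℂ 2 μ), ⟪ky y, h⟫_ℂ = ∫ u, (k y u : ℂ) * h u ∂μ := by
    intro y h
    rw [L2.inner_def]
    apply integral_congr_ae
    filter_upwards [(hky y).coeFn_toLp] with u hu
    rw [hu]
    simp [mul_comm]
  have hmeas : ∀ h : Lp ℂ 2 μ, AEStronglyMeasurable (fun y => ⟪ky y, h⟫_ℂ) μ := by
    intro h
    simp only [hinner]
    apply StronglyMeasurable.aestronglyMeasurable
    apply StronglyMeasurable.integral_prod_right (f := fun y u => (k y u : ℂ) * h u)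
    apply Measurable.stronglyMeasurable
    exact (Complex.measurable_ofReal.comp hm).mul
      ((Lp.stronglyMeasurable h).measurable.comp measurable_snd)
  have hbd : ∀ (h : Lp ℂ 2 μ) y, ‖⟪ky y, h⟫_ℂ‖ ≤ ‖h‖ := by
    intro h y
    refine (norm_inner_le_norm _ _).trans ?_
    exact mul_le_of_le_one_left (norm_nonneg _) (hnorm y)
  have hmem : ∀ h : Lp ℂ 2 μ, MemLp (fun y => ⟪ky y, h⟫_ℂ) 2 μ := fun h =>
    MemLp.of_bound (hmeas h) ‖h‖ (Eventually.of_forall (hbd h))
  let T₀ : Lp ℂ 2 μ →ₗ[ℂ] Lp ℂ 2 μ :=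
    { toFun := fun h => (hmem h).toLp _
      map_add' := fun h g => by
        rw [← MemLp.toLp_add]
        congr 1
        ext y
        simp [inner_add_right]
      map_smul' := fun c h => by
        rw [RingHom.id_apply, ← MemLp.toLp_const_smul]
        congr 1
        ext y
        simp [inner_smul_right] }
  have hT₀ : ∀ h, T₀ h =ᵐ[μ] fun y => ⟪ky y, h⟫_ℂ := fun h => (hmem h).coeFn_toLp
  have hT₀b : ∀ h, ‖T₀ h‖ ≤ 1 * ‖h‖ := by
    intro h
    have := Lp.norm_le_of_ae_bound (f := T₀ h) (norm_nonneg h) (by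
      filter_upwards [hT₀ h] with y hy
      rw [hy]
      exact hbd h y)
    simpa [measureUnivNNReal] using this
  refine ⟨T₀.mkContinuous 1 hT₀b, fun h => ?_, fun ι b hb' s => ?_⟩
  · simp only [← hinner]
    exact hT₀ h
  · simp only [LinearMap.mkContinuous_apply, norm_sq_eq_integral]
    rw [← integral_finsetSum _ fun i _ => integrable_norm_sq _]
    have h1 : ∫ _y, (1 : ℝ) ∂μ = 1 := by simp
    rw [← h1]
    apply integral_mono_ae (integrable_finsetSum _ fun i _ => integrable_norm_sq _)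
      (integrable_const _)
    have h2 : ∀ᵐ y ∂μ, ∀ i ∈ s, T₀ (b i) y = ⟪ky y, b i⟫_ℂ :=
      (Finset.eventually_all s).mpr fun i _ => hT₀ (b i)
    filter_upwards [h2] with y hy
    have h3 := hb'.sum_inner_products_le (s := s) (ky y)
    have h4 : ‖ky y‖ ^ 2 ≤ 1 := pow_le_one₀ (norm_nonneg _) (hnorm y)
    refine le_trans (le_of_eq ?_) (h3.trans h4)
    refine Finset.sum_congr rfl fun i hi => ?_
    rw [hy i hi, norm_inner_symm]

end Pool.Agent.Lib.MP_5a0ad8_an
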