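import Pool.Agent.Lib.MP_5a0ad8_an.Kernel

/-!
Lower bound for the fractional part operator on large subspaces.
-/

set_option autoImplicit false

open MeasureTheory Filter Set Module
open scoped InnerProductSpace Real

namespace Pool.Agent.Lib.MP_5a0ad8_an

/-- Lebesgue measure on the unit interval. -/
noncomputable abbrev leb : Measure ℝ := volume.restrict (Icc (0 : ℝ) 1)

instance : IsProbabilityMeasure leb := ⟨by simp⟩

/-- Exponentials of period one half. -/
noncomputable def ex (k : ℝ) (u : ℝ) : ℂ := Complex.exp (4 * π * Complex.I * k * u)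

theorem continuous_ex (k : ℝ) : Continuous (ex k) := by
  unfold ex
  fun_prop

theorem hasDerivAt_ex (k u : ℝ) : HasDerivAt (ex k) (4 * π * Complex.I * k * ex k u) u := by
  unfold ex
  have h1 : HasDerivAt (fun u : ℝ => (4 * π * Complex.I * k * u : ℂ)) (4 * π * Complex.I * k) u := by
    simpa using (Complex.ofRealCLM.hasDerivAt (x := u)).const_mul (4 * π * Complex.I * k : ℂ)
  simpa [mul_comm] using h1.cexp

theorem integral_ex_mul_conj (k l : ℕ) :
    ∫ u in (1 / 2 : ℝ)..1, ex k u * (starRingEnd ℂ) (ex l u) = if k = l then 1 / 2 else 0 := by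
  have h1 : ∀ u : ℝ, ex k u * (starRingEnd ℂ) (ex l u) =
      Complex.exp ((4 * π * Complex.I * ((k : ℤ) - l : ℤ)) * u) := by
    intro u
    simp only [ex, ← Complex.exp_conj, ← Complex.exp_add, map_mul, Complex.conj_ofReal,
      Complex.conj_I, map_ofNat]
    congr 1
    push_cast
    ring
  simp only [h1]
  split_ifs with h
  · simp [h]
    norm_num
  · have hz : (4 * π * Complex.I * ((k : ℤ) - l : ℤ) : ℂ) ≠ 0 := by
      have h1 : (π : ℂ) ≠ 0 := by exact_mod_cast Real.pi_ne_zero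
      have h2 : (((k : ℤ) - l : ℤ) : ℂ) ≠ 0 := by
        have : ((k : ℤ) - l : ℤ) ≠ 0 := by omega
        exact_mod_cast this
      exact mul_ne_zero (mul_ne_zero (mul_ne_zero (by norm_num) h1) Complex.I_ne_zero) h2
    rw [integral_exp_mul_complex hz]
    have h2 : Complex.exp (4 * π * Complex.I * ((k : ℤ) - l : ℤ) * (1 : ℝ)) = 1 := by
      rw [← Complex.exp_int_mul_two_pi_mul_I (2 * ((k : ℤ) - l))]
      congr 1
      push_cast
      ring
    have h3 : Complex.exp (4 * π * Complex.I * ((k : ℤ) - l : ℤ) * (1 / 2 : ℝ)) = 1 := by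
      rw [← Complex.exp_int_mul_two_pi_mul_I ((k : ℤ) - l)]
      congr 1
      push_cast
      ring
    rw [h2, h3]
    simp

theorem parseval {m : ℕ} (a : Fin m → ℂ) :
    ∫ u in (1 / 2 : ℝ)..1, ‖∑ k, a k * ex (k : ℕ) u‖ ^ 2 = 1 / 2 * ∑ k, ‖a k‖ ^ 2 := by
  apply Complex.ofReal_injective
  rw [← intervalIntegral.integral_ofReal]
  have h1 : ∀ u : ℝ, ((‖∑ k, a k * ex (k : ℕ) u‖ ^ 2 : ℝ) : ℂ) =
      ∑ k, ∑ l, a k * (starRingEnd ℂ) (a l) *
        (ex (k : ℕ) u * (starRingEnd ℂ) (ex (l : ℕ) u)) := by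
    intro u
    push_cast
    rw [← Complex.mul_conj', map_sum, Finset.sum_mul_sum]
    refine Finset.sum_congr rfl fun k _ => Finset.sum_congr rfl fun l _ => ?_
    rw [map_mul]
    ring
  simp only [h1]
  have hc : ∀ k l : Fin m, Continuous fun u : ℝ => a k * (starRingEnd ℂ) (a l) *
      (ex (k : ℕ) u * (starRingEnd ℂ) (ex (l : ℕ) u)) := fun k l =>
    continuous_const.mul ((continuous_ex _).mul (Complex.continuous_conj.comp (continuous_ex _)))
  rw [intervalIntegral.integral_finsetSum fun k _ =>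
    (continuous_finsetSum _ fun l _ => hc k l).intervalIntegrable _ _]
  push_cast
  rw [Finset.mul_sum]
  refine Finset.sum_congr rfl fun k _ => ?_
  rw [intervalIntegral.integral_finsetSum fun l _ => (hc k l).intervalIntegrable _ _]
  simp only [intervalIntegral.integral_const_mul, integral_ex_mul_conj, Fin.val_inj]
  simp [Complex.mul_conj']
  ring

theorem kernel_mul (y u : ℝ) (hy : 1 / 2 < y) (hu : u ∈ Icc (1 / 2 : ℝ) 1) :
    Int.fract (u / y) / (u / y) * u = u - (Ici y).indicator (fun _ => y) u := by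
  have hy0 : 0 < y := by linarith
  have hu0 : 0 < u := by linarith [hu.1]
  by_cases h : y ≤ u
  · rw [indicator_of_mem (show u ∈ Ici y from h)]
    have h1 : Int.fract (u / y) = u / y - 1 := by
      rw [Int.fract_eq_iff]
      refine ⟨?_, ?_, 1, by simp⟩
      · rw [sub_nonneg, le_div_iff₀ hy0]; linarith
      · rw [sub_lt_iff_lt_add, div_lt_iff₀ hy0]; linarith [hu.2]
    rw [h1]
    field_simp
  · rw [indicator_of_notMem (show u ∉ Ici y from h)]
    have h1 : Int.fract (u / y) = u / y := by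
      rw [Int.fract_eq_self]
      refine ⟨by positivity, ?_⟩
      rw [div_lt_iff₀ hy0]; linarith
    rw [h1]
    field_simp
    ring

theorem integral_kernel (G φ : ℝ → ℂ) (hφ : Continuous φ) (hG : ∀ u, HasDerivAt G (φ u) u)
    (h0 : ∫ u in (1 / 2 : ℝ)..1, u * φ u = 0) (h1 : G 1 = 0) (y : ℝ) (hy : y ∈ Ioc (1 / 2 : ℝ) 1) :
    ∫ u, ((Int.fract (u / y) / (u / y) : ℝ) : ℂ) *
      (Icc (1 / 2 : ℝ) 1).indicator (fun u : ℝ => (u : ℂ) * φ u) u ∂leb = y * G y := by
  have hsub : Icc (0 : ℝ) 1 ∩ Icc (1 / 2 : ℝ) 1 = Icc (1 / 2 : ℝ) 1 :=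
    inter_eq_right.mpr (Icc_subset_Icc (by norm_num) le_rfl)
  have h5 : ∀ u : ℝ, ((Int.fract (u / y) / (u / y) : ℝ) : ℂ) *
      (Icc (1 / 2 : ℝ) 1).indicator (fun u : ℝ => (u : ℂ) * φ u) u =
      (Icc (1 / 2 : ℝ) 1).indicator
        (fun u : ℝ => ((Int.fract (u / y) / (u / y) : ℝ) : ℂ) * ((u : ℂ) * φ u)) u := by
    intro u
    by_cases h : u ∈ Icc (1 / 2 : ℝ) 1
    · simp only [indicator_of_mem h]
    · simp only [indicator_of_notMem h, mul_zero]
  simp only [h5]
  rw [setIntegral_indicator measurableSet_Icc, hsub]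
  have h2 : ∀ u ∈ Icc (1 / 2 : ℝ) 1, ((Int.fract (u / y) / (u / y) : ℝ) : ℂ) * ((u : ℂ) * φ u) =
      u * φ u - (Ici y).indicator (fun u => y * φ u) u := by
    intro u hu
    rw [← mul_assoc, ← Complex.ofReal_mul, kernel_mul y u hy.1 hu]
    by_cases h : u ∈ Ici y
    · simp only [indicator_of_mem h]
      push_cast
      ring
    · simp only [indicator_of_notMem h]
      push_cast
      ring
  rw [setIntegral_congr_fun measurableSet_Icc h2, integral_sub,
    setIntegral_indicator measurableSet_Ici]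
  · have h3 : Icc (1 / 2 : ℝ) 1 ∩ Ici y = Icc y 1 := by
      ext u
      simp only [mem_inter_iff, mem_Icc, mem_Ici]
      constructor
      · rintro ⟨⟨_, h⟩, h'⟩; exact ⟨h', h⟩
      · rintro ⟨h, h'⟩; exact ⟨⟨by linarith [hy.1], h'⟩, h⟩
    rw [h3, integral_Icc_eq_integral_Ioc, integral_Icc_eq_integral_Ioc,
      ← intervalIntegral.integral_of_le (by norm_num), ← intervalIntegral.integral_of_le hy.2,
      h0, intervalIntegral.integral_const_mul,
      intervalIntegral.integral_eq_sub_of_hasDerivAt (fun u _ => hG u)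
        (hφ.intervalIntegrable _ _), h1]
    ring
  · exact (by fun_prop : Continuous fun u : ℝ => (u : ℂ) * φ u).continuousOn.integrableOn_compact
      isCompact_Icc
  · apply Integrable.indicator _ measurableSet_Ici
    exact (by fun_prop : Continuous fun u : ℝ => (y : ℂ) * φ u).continuousOn.integrableOn_compact
      isCompact_Icc

theorem memLp_indicator (ψ : ℝ → ℂ) (hψ : Continuous ψ) :
    MemLp ((Icc (1 / 2 : ℝ) 1).indicator ψ) 2 leb := by
  apply MemLp.indicator measurableSet_Icc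
  obtain ⟨C, hC⟩ := isCompact_Icc.exists_bound_of_continuousOn
    (hψ.continuousOn (s := Icc (0 : ℝ) 1))
  exact MemLp.of_bound hψ.aestronglyMeasurable C
    ((ae_restrict_iff' measurableSet_Icc).mpr (Eventually.of_forall hC))

theorem lower_bound (T : Lp ℂ 2 leb →L[ℂ] Lp ℂ 2 leb)
    (hT : ∀ h : Lp ℂ 2 leb,
      T h =ᵐ[leb] fun y => ∫ u, ((Int.fract (u / y) / (u / y) : ℝ) : ℂ) * h u ∂leb)
    (m : ℕ) (U : Submodule ℂ (Lp ℂ 2 leb)) (hU : FiniteDimensional ℂ U)
    (hm : finrank ℂ U + 2 < m) :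
    ∃ x ∈ Uᗮ, x ≠ 0 ∧ (1 / (8 * π)) / m * ‖x‖ ≤ ‖T x‖ := by
  let G : (Fin m → ℂ) → ℝ → ℂ := fun b u => ∑ k, b k * ex (k : ℕ) u
  let φ : (Fin m → ℂ) → ℝ → ℂ := fun b u =>
    ∑ k : Fin m, (4 * π * Complex.I * ((k : ℕ) : ℝ) * b k) * ex (k : ℕ) u
  have hφc : ∀ b, Continuous (φ b) := fun b =>
    continuous_finsetSum _ fun k _ => continuous_const.mul (continuous_ex _)
  have hGc : ∀ b, Continuous (G b) := fun b =>
    continuous_finsetSum _ fun k _ => continuous_const.mul (continuous_ex _)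
  have hGφ : ∀ b u, HasDerivAt (G b) (φ b u) u := by
    intro b u
    have := HasDerivAt.fun_sum (u := Finset.univ) fun (k : Fin m) _ =>
      (hasDerivAt_ex (k : ℕ) u).const_mul (b k)
    refine this.congr_deriv (Finset.sum_congr rfl fun k _ => by ring)
  have huc : ∀ b, Continuous fun u : ℝ => (u : ℂ) * φ b u := fun b =>
    Complex.continuous_ofReal.mul (hφc b)
  have φ_add : ∀ a b u, φ (a + b) u = φ a u + φ b u := by
    intro a b u
    simp only [φ, Pi.add_apply, ← Finset.sum_add_distrib]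
    exact Finset.sum_congr rfl fun k _ => by ring
  have φ_smul : ∀ (c : ℂ) b u, φ (c • b) u = c * φ b u := by
    intro c b u
    simp only [φ, Pi.smul_apply, smul_eq_mul, Finset.mul_sum]
    exact Finset.sum_congr rfl fun k _ => by ring
  let L : (Fin m → ℂ) →ₗ[ℂ] Lp ℂ 2 leb :=
    { toFun := fun b => (memLp_indicator _ (huc b)).toLp _
      map_add' := fun a b => by
        rw [← MemLp.toLp_add]
        congr 1
        ext u
        by_cases h : u ∈ Icc (1 / 2 : ℝ) 1
        · simp only [Pi.add_apply, indicator_of_mem h, φ_add, mul_add]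
        · simp only [Pi.add_apply, indicator_of_notMem h, add_zero]
      map_smul' := fun c b => by
        rw [RingHom.id_apply, ← MemLp.toLp_const_smul]
        congr 1
        ext u
        by_cases h : u ∈ Icc (1 / 2 : ℝ) 1
        · simp only [Pi.smul_apply, indicator_of_mem h, φ_smul, smul_eq_mul]
          ring
        · simp only [Pi.smul_apply, indicator_of_notMem h, smul_zero] }
  have hL : ∀ b, L b =ᵐ[leb] (Icc (1 / 2 : ℝ) 1).indicator fun u : ℝ => (u : ℂ) * φ b u :=
    fun b => (memLp_indicator _ (huc b)).coeFn_toLp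
  let c0 : (Fin m → ℂ) →ₗ[ℂ] ℂ :=
    { toFun := fun b => ∫ u in (1 / 2 : ℝ)..1, u * φ b u
      map_add' := fun a b => by
        rw [← intervalIntegral.integral_add ((huc a).intervalIntegrable _ _)
          ((huc b).intervalIntegrable _ _)]
        simp only [φ_add, mul_add]
      map_smul' := fun c b => by
        rw [RingHom.id_apply, smul_eq_mul, ← intervalIntegral.integral_const_mul]
        simp only [φ_smul, mul_left_comm] }
  let c1 : (Fin m → ℂ) →ₗ[ℂ] ℂ := Fintype.linearCombination ℂ fun k : Fin m => ex (k : ℕ) 1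
  let Φ : (Fin m → ℂ) →ₗ[ℂ] U × ℂ × ℂ :=
    ((U.orthogonalProjectionOnto : Lp ℂ 2 leb →ₗ[ℂ] U).comp L).prod (c0.prod c1)
  have hker : LinearMap.ker Φ ≠ ⊥ := by
    apply LinearMap.ker_ne_bot_of_finrank_lt
    simpa [Module.finrank_prod] using hm
  obtain ⟨b, hb, hb0⟩ := Submodule.exists_mem_ne_zero_of_ne_bot hker
  have hb' : Φ b = 0 := hb
  have hb1 : U.orthogonalProjectionOnto (L b) = 0 := congrArg Prod.fst hb'
  have hb2 : ∫ u in (1 / 2 : ℝ)..1, u * φ b u = 0 := congrArg (fun p => p.2.1) hb'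
  have hb3 : G b 1 = 0 := by
    have : c1 b = 0 := congrArg (fun p => p.2.2) hb'
    simpa [c1, Fintype.linearCombination_apply] using this
  set S : ℝ := 1 / 2 * ∑ k, ‖b k‖ ^ 2 with hS
  have hSpos : 0 < S := by
    obtain ⟨k, hk⟩ := Function.ne_iff.mp hb0
    have h1 : 0 < ‖b k‖ ^ 2 := by
      have := norm_pos_iff.mpr hk
      positivity
    have h2 : ‖b k‖ ^ 2 ≤ ∑ k, ‖b k‖ ^ 2 :=
      Finset.single_le_sum (f := fun k => ‖b k‖ ^ 2) (fun _ _ => by positivity)
        (Finset.mem_univ k)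
    rw [hS]; linarith
  have hsub : Icc (0 : ℝ) 1 ∩ Icc (1 / 2 : ℝ) 1 = Icc (1 / 2 : ℝ) 1 :=
    inter_eq_right.mpr (Icc_subset_Icc (by norm_num) le_rfl)
  have hup : ‖L b‖ ^ 2 ≤ (4 * π * m) ^ 2 * S := by
    rw [norm_sq_eq_integral]
    have h1 : ∫ u, ‖L b u‖ ^ 2 ∂leb =
        ∫ u, (Icc (1 / 2 : ℝ) 1).indicator (fun u : ℝ => ‖(u : ℂ) * φ b u‖ ^ 2) u ∂leb := by
      apply integral_congr_ae
      filter_upwards [hL b] with u hu
      rw [hu]
      by_cases h : u ∈ Icc (1 / 2 : ℝ) 1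
      · simp only [indicator_of_mem h]
      · simp only [indicator_of_notMem h, norm_zero]
        norm_num
    rw [h1, setIntegral_indicator measurableSet_Icc, hsub, integral_Icc_eq_integral_Ioc,
      ← intervalIntegral.integral_of_le (by norm_num)]
    have h2 : ∫ u in (1 / 2 : ℝ)..1, ‖(u : ℂ) * φ b u‖ ^ 2 ≤
        ∫ u in (1 / 2 : ℝ)..1, ‖φ b u‖ ^ 2 := by
      apply intervalIntegral.integral_mono_on (by norm_num)
        (((huc b).norm.pow 2).intervalIntegrable _ _)
        (((hφc b).norm.pow 2).intervalIntegrable _ _)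
      intro u hu
      change ‖(u : ℂ) * φ b u‖ ^ 2 ≤ ‖φ b u‖ ^ 2
      rw [norm_mul, Complex.norm_real, Real.norm_eq_abs, abs_of_nonneg (by linarith [hu.1])]
      have h3 : u * ‖φ b u‖ ≤ ‖φ b u‖ := mul_le_of_le_one_left (norm_nonneg _) hu.2
      have h4 : 0 ≤ u * ‖φ b u‖ := mul_nonneg (by linarith [hu.1]) (norm_nonneg _)
      exact pow_le_pow_left₀ h4 h3 2
    refine h2.trans ?_
    rw [parseval, hS, mul_left_comm, Finset.mul_sum Finset.univ _ ((4 * π * m) ^ 2)]
    gcongr with k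
    rw [norm_mul, mul_pow]
    gcongr
    have hk : ((k : ℕ) : ℝ) ≤ m := by exact_mod_cast k.2.le
    simp only [norm_mul, Complex.norm_real, Complex.norm_I, mul_one, Real.norm_eq_abs,
      Complex.norm_ofNat, abs_of_pos Real.pi_pos, Nat.abs_cast]
    have := Real.pi_pos
    gcongr
  have hlow : S / 4 ≤ ‖T (L b)‖ ^ 2 := by
    rw [norm_sq_eq_integral]
    have hyc : Continuous fun y : ℝ => ‖(y : ℂ) * G b y‖ ^ 2 :=
      (Complex.continuous_ofReal.mul (hGc b)).norm.pow 2
    have h1 : ∫ y, (Ioc (1 / 2 : ℝ) 1).indicator (fun y : ℝ => ‖(y : ℂ) * G b y‖ ^ 2) y ∂leb ≤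
        ∫ y, ‖T (L b) y‖ ^ 2 ∂leb := by
      apply integral_mono_ae _ (integrable_norm_sq _)
      · filter_upwards [hT (L b)] with y hy
        by_cases h : y ∈ Ioc (1 / 2 : ℝ) 1
        · rw [indicator_of_mem h, hy, ← integral_kernel (G b) (φ b) (hφc b) (hGφ b) hb2 hb3 y h]
          apply le_of_eq
          congr 2
          apply integral_congr_ae
          filter_upwards [hL b] with u hu
          rw [hu]
        · rw [indicator_of_notMem h]
          positivity
      · exact Integrable.indicator (hyc.continuousOn.integrableOn_compact isCompact_Icc)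
          measurableSet_Ioc
    refine le_trans ?_ h1
    have hsub' : Icc (0 : ℝ) 1 ∩ Ioc (1 / 2 : ℝ) 1 = Ioc (1 / 2 : ℝ) 1 :=
      inter_eq_right.mpr (Ioc_subset_Icc_self.trans (Icc_subset_Icc (by norm_num) le_rfl))
    rw [setIntegral_indicator measurableSet_Ioc, hsub',
      ← intervalIntegral.integral_of_le (by norm_num), hS, ← parseval,
      ← intervalIntegral.integral_div]
    apply intervalIntegral.integral_mono_on (by norm_num)
      ((((hGc b).norm.pow 2).div_const 4).intervalIntegrable _ _) (hyc.intervalIntegrable _ _)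
    intro u hu
    rw [norm_mul, Complex.norm_real, Real.norm_eq_abs, abs_of_nonneg (by linarith [hu.1]),
      mul_pow]
    have h2 : (1 / 2 : ℝ) ^ 2 ≤ u ^ 2 := by gcongr; exact hu.1
    have h3 : 0 ≤ ‖G b u‖ ^ 2 := by positivity
    change ‖G b u‖ ^ 2 / 4 ≤ _
    nlinarith
  refine ⟨L b, Submodule.orthogonalProjectionOnto_eq_zero_iff.mp hb1, ?_, ?_⟩
  · intro h0
    rw [h0] at hlow
    simp at hlow
    linarith
  · have hm0 : (0 : ℝ) < m := by exact_mod_cast (show 0 < m by omega)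
    have hπ := Real.pi_pos
    apply le_of_sq_le_sq _ (norm_nonneg _) |>.trans le_rfl
    refine le_trans ?_ hlow
    rw [mul_pow]
    calc (1 / (8 * π) / m) ^ 2 * ‖L b‖ ^ 2 ≤ (1 / (8 * π) / m) ^ 2 * ((4 * π * m) ^ 2 * S) := by
          gcongr
      _ = S / 4 := by field_simp; ring

end Pool.Agent.Lib.MP_5a0ad8_an
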